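import Pool.Agent.X290.Reg.Ex
import Pool.Agent.X290.Reg.Sec
/-!
# Geometrically pro-`p` Galois sections are determined at one prime

Let `K` be a number field and `K'/K` a finite Galois extension such that `K'` has exactly one prime
above `p` and no Galois extension of `p`-power degree, other than itself, which is unramified at all
finite primes (for `K = ℚ`: `K' = ℚ(i)` for `p = 2`, `K' = ℚ(ζ_p)` for `p = 3, 5, 7`). Let
`π : E → H` be a continuous homomorphism of a profinite group with pro-`p` kernel `Δ`, and
`q : G_K → H`. Think of a smooth projective curve with good reduction outside `p`: `H` is the Galois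
group of the maximal extension of `K` unramified outside `p`, `E` is the fundamental group of the
smooth model over `O_K[1/p]` modulo the kernel of the map from the geometric fundamental group to its
maximal pro-`p` quotient `Δ`. A section is a lift `s : G_K → E` of `q` which is unramified outside
`p`. If `G_{K'}` acts through `p`-groups on the quotients of `Δ` of order `p` (on the maximal open
subgroups of `Δ`), two sections which are conjugate by an element of `Δ` on a decomposition group at
`p` are conjugate by this element on `G_K`; if they are so on the inertia group at `p` of `G_{K'}`,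
they are so on `G_{K'}`.
-/

set_option autoImplicit false

open NumberField

namespace Pool.Agent.Results.MP_e6d05b_ag.PropLocalization

/-- The absolute Galois group of `K`. -/
abbrev G (K : Type) [Field K] : Type := Gal(AlgebraicClosure K/K)

/-- The ring of all algebraic integers. -/
abbrev Z (K : Type) [Field K] : Type := 𝓞 (AlgebraicClosure K)

/-- The field `M` (with all number fields `M'` isomorphic to it) has no Galois extension of degree a
power of `p`, different from `1`, which is unramified at all maximal ideals. -/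
def NoUnramified (p : ℕ) (M : Type) [Field M] : Prop :=
  ∀ (M' L : Type) [Field M'] [NumberField M'] [Field L] [NumberField L] [Algebra M' L]
    [IsGalois M' L], Nonempty (M' ≃+* M) →
    (∀ (Q : Ideal (𝓞 L)) [Q.IsMaximal], Algebra.IsUnramifiedAt (𝓞 M') Q) →
      ∀ k : ℕ, Module.finrank M' L = p ^ k → k = 0

/-- There is at most one maximal ideal above `p`. -/
def OnePrime (p : ℕ) (M : Type) [Field M] : Prop :=
  ∀ P Q : Ideal (𝓞 M), P.IsMaximal → Q.IsMaximal → (p : 𝓞 M) ∈ P → (p : 𝓞 M) ∈ Q → P = Q

/-- The conditions on the field `K'`. -/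
def Base {K : Type} [Field K] (p : ℕ) (K' : IntermediateField K (AlgebraicClosure K)) : Prop :=
  FiniteDimensional K K' ∧ IsGalois K K' ∧ NoUnramified p K' ∧ OnePrime p K'

variable {K : Type} [Field K]

/-- The inertia group at the prime ideal `P` of the ring of all algebraic integers. -/
def Inertia (P : Ideal (Z K)) : Set (G K) := {τ | ∀ x : Z K, τ • x - x ∈ P}

/-- The decomposition group at the prime ideal `P` of the ring of all algebraic integers. -/
def Decomposition (P : Ideal (Z K)) : Set (G K) := {g | ∀ x : Z K, g • x ∈ P ↔ x ∈ P}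

variable {E H : Type} [Group E] [TopologicalSpace E] [Group H]

/-- `s` is a section: a continuous lift of `q : G_K → H` to `E` which is unramified outside `p`. -/
def IsSection (p : ℕ) (π : E →* H) (q : G K →* H) (s : G K →* E) : Prop :=
  Continuous s ∧ (∀ g, π (s g) = q g) ∧
    ∀ Q : Ideal (Z K), Q.IsMaximal → (p : Z K) ∉ Q → ∀ τ ∈ Inertia Q, s τ = 1

/-- The kernel of `π : E → H` is pro-`p`. -/
def ProPKernel (p : ℕ) (π : E →* H) : Prop :=
  ∀ N : Subgroup E, N.Normal → IsOpen (N : Set E) → ∀ δ ∈ π.ker, ∃ k : ℕ, δ ^ p ^ k ∈ N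

/-- For every maximal open subgroup `M` of the kernel `Δ` of `π` (if `Δ` is pro-`p`, these are the
open normal subgroups of index `p`), every element of `G_{K'}` has a `p`-power which acts trivially
modulo `M`, through `s` and conjugation: `G_{K'}` acts on the group of continuous homomorphisms
`Δ → 𝔽_p` through elements of `p`-power order. -/
def Unipotent (p : ℕ) (K' : IntermediateField K (AlgebraicClosure K)) (π : E →* H)
    (s : G K →* E) : Prop :=
  ∀ M : Subgroup π.ker, IsOpen (M : Set π.ker) → IsCoatom M → ∀ u ∈ K'.fixingSubgroup,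
    ∃ k : ℕ, ∀ δ : π.ker, MulAut.conjNormal (s u ^ p ^ k) δ * δ⁻¹ ∈ M

omit [TopologicalSpace E] [Group H] in
/-- `s'` is `s` conjugated by `γ` on the set `T`. -/
def ConjugateOn (s s' : G K →* E) (γ : E) (T : Set (G K)) : Prop :=
  ∀ g ∈ T, s' g = γ * s g * γ⁻¹

/-- The fields generated by roots of unity of order `3`, `4`, `5`, `12` (for every prime `p`) and
`7` (for `p = 7`). -/
def Example (p : ℕ) (M : Type) [Field M] [NumberField M] : Prop :=
  IsCyclotomicExtension {3} ℚ M ∨ IsCyclotomicExtension {4} ℚ M ∨ IsCyclotomicExtension {5} ℚ M ∨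
    IsCyclotomicExtension {12} ℚ M ∨ (p = 7 ∧ IsCyclotomicExtension {7} ℚ M)

/-- The theorem. -/
theorem result :
    (∀ (p : ℕ) [Fact p.Prime] (K : Type) [Field K] [NumberField K]
      (K' : IntermediateField K (AlgebraicClosure K)), Base p K' →
      ∀ P : Ideal (Z K), P.IsMaximal → (p : Z K) ∈ P →
      ∀ (E H : Type) [Group E] [TopologicalSpace E] [IsTopologicalGroup E] [CompactSpace E]
        [T2Space E] [TotallyDisconnectedSpace E] [Group H] (π : E →* H) (q : G K →* H),
        ProPKernel p π → ∀ s s' : G K →* E, IsSection p π q s → IsSection p π q s' →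
        Unipotent p K' π s → ∀ γ ∈ π.ker,
          (ConjugateOn s s' γ (Decomposition P) → ConjugateOn s s' γ Set.univ) ∧
          (ConjugateOn s s' γ (Inertia P ∩ K'.fixingSubgroup) →
            ConjugateOn s s' γ K'.fixingSubgroup)) ∧
    ∀ p : ℕ, p.Prime → ∀ (M : Type) [Field M] [NumberField M], Example p M → NoUnramified p M := by
  refine ⟨?_, ?_⟩
  · rintro p hpf K _ _ K' ⟨_, _, hNU, hone⟩ P hP hpP E H _ _ _ _ _ _ _ π q hΔ s s'
      ⟨hs, hsq, hsu⟩ ⟨hs', hsq', hsu'⟩ huni γ hγ
    have e : IntermediateField.fixedField K'.fixingSubgroup = K' :=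
      InfiniteGalois.fixedField_fixingSubgroup K'
    have hUn : K'.fixingSubgroup.Normal :=
      (InfiniteGalois.normal_iff_isGalois K').2 inferInstance
    have hUo : IsOpen (K'.fixingSubgroup : Set Gal(AlgebraicClosure K/K)) :=
      (InfiniteGalois.isOpen_iff_finite K').2 inferInstance
    have hNU' : Pool.Agent.X290.Reg.NoUnrF p
        (IntermediateField.fixedField K'.fixingSubgroup) := by rw [e]; exact hNU
    have hone' : Pool.Agent.X290.Reg.OnePrime p
        (IntermediateField.fixedField K'.fixingSubgroup) := by rw [e]; exact hone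
    let t : G K →* E := (MulAut.conj γ⁻¹).toMonoidHom.comp s'
    have ht : ∀ g, t g = γ⁻¹ * s' g * γ := by
      intro g
      show γ⁻¹ * s' g * γ⁻¹⁻¹ = _
      rw [inv_inv]
    have htc : Continuous t := by
      have h1 : (t : G K → E) = fun g => γ⁻¹ * s' g * γ := funext ht
      rw [h1]
      exact (continuous_const.mul hs').mul continuous_const
    have hγ1 : π γ = 1 := hγ
    have hss : ∀ g, t g * (s g)⁻¹ ∈ π.ker := by
      intro g
      rw [MonoidHom.mem_ker, ht, map_mul, map_mul, map_mul, map_inv, map_inv, hγ1, hsq, hsq']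
      simp
    have key := fun (N : Subgroup E) (hN : N.Normal) (hNo : IsOpen (N : Set E)) =>
      Pool.Agent.X290.Reg.sec_values K'.fixingSubgroup hUo hNU' hone' hP hpP N hNo π.ker
        (hΔ N hN hNo) s t hs htc hss (fun Q hQ hpQ τ hτ => ⟨hsu Q hQ hpQ τ hτ, by
          rw [ht, hsu' Q hQ hpQ τ hτ]
          simp⟩) huni
    have hfin : ∀ (g : G K), t g * (s g)⁻¹ = 1 → s' g = γ * s g * γ⁻¹ := by
      intro g h
      have h1 : t g = s g := mul_inv_eq_one.1 h
      rw [← h1, ht]
      group
    have hloc : ∀ g : G K, s' g = γ * s g * γ⁻¹ → t g * (s g)⁻¹ = 1 := by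
      intro g h
      rw [ht, h]
      group
    refine ⟨fun h g _ => ?_, fun h u hu => ?_⟩
    · refine hfin g (Pool.Agent.X290.Reg.eq_one_of_mem fun N hN hNo => ?_)
      obtain ⟨d, hd, h1⟩ := (key N hN hNo).2 g
      rw [hloc d (h d hd), inv_one, one_mul] at h1
      exact h1
    · refine hfin u (Pool.Agent.X290.Reg.eq_one_of_mem fun N hN hNo => ?_)
      obtain ⟨d, hd, hdU, h1⟩ := (key N hN hNo).1 u hu
      rw [hloc d (h d ⟨hd, hdU⟩), inv_one, one_mul] at h1
      exact h1
  · rintro p hp M _ _ (h | h | h | h | ⟨rfl, h⟩)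
    · exact Pool.Agent.X290.Reg.noUnrF3 hp M
    · exact Pool.Agent.X290.Reg.noUnrF4 hp M
    · exact Pool.Agent.X290.Reg.noUnrF5 hp M
    · exact Pool.Agent.X290.Reg.noUnrF12 hp M
    · exact Pool.Agent.X290.Reg.noUnrF7 M

end Pool.Agent.Results.MP_e6d05b_ag.PropLocalization
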